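import Pool.Agent.Work.MP_ef7f46_tn.Interface

/-!
MP_ef7f46_co, project TN: block CMB (helper68).
-/

set_option autoImplicit false
open Classical Finset

noncomputable section

namespace TN

namespace CMB

/-- coordinates of the points of the grid -/
def co {N M : ℕ} (y : Fin N × Fin M) : ℕ × ℕ := (y.1.val, y.2.val)

theorem co_inj {N M : ℕ} : Function.Injective (co (N := N) (M := M)) := by
  intro y y' h
  unfold co at h
  rw [Prod.mk.injEq] at h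
  exact Prod.ext (Fin.ext h.1) (Fin.ext h.2)

theorem mem_incP {N M : ℕ} (ℓ : PL N M) (y : Fin N × Fin M) :
    y ∈ incP N M ℓ ↔ (co y).2 = ℓ.1.1.val + (co y).1 * ℓ.1.2.val := by
  unfold incP co
  simp

/-- the statement for a context with coordinates -/
theorem main {Q Λ : Type} [Fintype Q] [Fintype Λ] (X : Ctx Q Λ) (co : Q → ℕ × ℕ)
    (hco : Function.Injective co) (la lv : Λ → ℕ)
    (hinc : ∀ ℓ y, y ∈ X.inc ℓ ↔ (co y).2 = la ℓ + (co y).1 * lv ℓ)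
    (hReg : Reg X) (hNum : Num X) (z : Pos X → Q) (hTyp : Typ X z)
    (hdet : ∀ I : Finset (Pos X), (I.card : ℝ) ≤ X.lam * X.M / 400 →
      ∃ ℓ : Λ, (∀ p ∈ I, z p ∉ X.inc ℓ) ∧ (X.lam : ℝ) / 8 < pz X z ℓ ∧
        ∀ p p', z p ∈ X.inc ℓ → z p = z p' → p = p') :
    ∃ A : Finset (ℕ × ℕ), A.Nonempty ∧ A.card ≤ X.lam * X.M ∧ (∀ p ∈ A, ∃ y, co y = p) ∧
      ∀ T ⊆ A, (T.card : ℝ) ≤ X.lam * X.M / 800 →
        ∃ ℓ : Λ,
          (X.lam : ℝ) / 8 < ((A.filter (fun p => p.2 = la ℓ + p.1 * lv ℓ)).card : ℝ) ∧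
          ∀ p ∈ T, p.2 ≠ la ℓ + p.1 * lv ℓ := by
  have hmpos : 0 < X.m := hReg.mpos
  have hbpos : 0 < X.b := hReg.bpos
  have hcard : Fintype.card (Pos X) = X.lam * X.M := by
    show Fintype.card (Fin X.m × Fin X.b) = _
    rw [Fintype.card_prod, Fintype.card_fin, Fintype.card_fin, hReg.mb]
  obtain ⟨A, hA, hAc⟩ : ∃ A : Finset (ℕ × ℕ), (∀ p, p ∈ A ↔ ∃ q, co (z q) = p) ∧
      A.card ≤ X.lam * X.M := by
    refine ⟨univ.image (fun p : Pos X => co (z p)), fun p => by simp, ?_⟩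
    calc _ ≤ (univ : Finset (Pos X)).card := card_image_le
      _ = X.lam * X.M := by rw [card_univ, hcard]
  refine ⟨A, ?_, hAc, ?_, ?_⟩
  · exact ⟨_, (hA _).2 ⟨(⟨0, hmpos⟩, ⟨0, hbpos⟩), rfl⟩⟩
  · intro p hp
    obtain ⟨q, rfl⟩ := (hA p).1 hp
    exact ⟨z q, rfl⟩
  · intro T hTA hT
    -- the positions of the points of `T`
    obtain ⟨I, hI⟩ : ∃ I : Finset (Pos X), ∀ p, p ∈ I ↔ co (z p) ∈ T :=
      ⟨univ.filter (fun p => co (z p) ∈ T), fun p => by simp⟩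
    obtain ⟨Rp, hRp, hreps⟩ : ∃ Rp : Finset (Pos X), (∀ p, p ∈ Rp ↔ ∃ p', p' ≠ p ∧ z p = z p') ∧
        (Rp.card : ℝ) ≤ 10 * (X.lam : ℝ) / X.N * (X.lam * X.M) :=
      ⟨univ.filter (fun p => ∃ p', p' ≠ p ∧ z p = z p'), fun p => by simp, hTyp.reps⟩
    have hI1 : (I \ Rp).card ≤ T.card := by
      apply card_le_card_of_injOn (fun p => co (z p))
      · intro p hp
        have hp' := (mem_sdiff.1 (mem_coe.1 hp)).1
        exact mem_coe.2 ((hI p).1 hp')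
      · intro p hp p' hp' h
        by_contra hne
        have h2 := (mem_sdiff.1 (mem_coe.1 hp)).2
        have h3 : z p = z p' := hco h
        exact h2 ((hRp p).2 ⟨p', fun h4 => hne h4.symm, h3⟩)
    have hI2 : I.card ≤ T.card + Rp.card :=
      le_trans card_le_card_sdiff_add_card (Nat.add_le_add_right hI1 _)
    have hlamM : (0 : ℝ) ≤ (X.lam : ℝ) * X.M := by positivity
    have hreps' : (Rp.card : ℝ) ≤ 1 / 800 * ((X.lam : ℝ) * X.M) :=
      le_trans hreps (mul_le_mul_of_nonneg_right hNum.rep hlamM)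
    have hIc : (I.card : ℝ) ≤ X.lam * X.M / 400 := by
      have h1 : (I.card : ℝ) ≤ (T.card : ℝ) + (Rp.card : ℝ) := by exact_mod_cast hI2
      linarith
    obtain ⟨ℓ, hℓ1, hℓ2, hℓ3⟩ := hdet I hIc
    refine ⟨ℓ, ?_, ?_⟩
    · refine lt_of_lt_of_le hℓ2 ?_
      unfold pz
      have h1 : (univ.filter (fun p : Pos X => z p ∈ X.inc ℓ)).card ≤
          (A.filter (fun p => p.2 = la ℓ + p.1 * lv ℓ)).card := by
        apply card_le_card_of_injOn (fun p => co (z p))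
        · intro p hp
          have hp' := (mem_filter.1 (mem_coe.1 hp)).2
          exact mem_coe.2 (mem_filter.2 ⟨(hA _).2 ⟨p, rfl⟩, (hinc _ _).1 hp'⟩)
        · intro p hp p' hp' h
          exact hℓ3 p p' (mem_filter.1 (mem_coe.1 hp)).2 (hco h)
      exact_mod_cast h1
    · intro p hp
      obtain ⟨q, hq⟩ := (hA p).1 (hTA hp)
      have hqI : q ∈ I := (hI q).2 (by rw [hq]; exact hp)
      have h1 := hℓ1 q hqI
      rw [hinc, hq] at h1
      exact h1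

end CMB

theorem cmb_ok (hPARX : Stmt_PARX) (hPLN : Stmt_PLN) (hEXI : Stmt_EXI) (hDET : Stmt_DET) :
    Stmt_CMB := by
  obtain ⟨u₀, hu₀⟩ := hPARX
  refine ⟨max u₀ 10, fun u hu => ?_⟩
  have huu0 : u₀ ≤ u := le_trans (le_max_left _ _) hu
  have hu10 : 10 ≤ u := le_trans (le_max_right _ _) hu
  have hupos : 0 < u := by omega
  have hlin : Lin (incP (u ^ 32) (u ^ 66)) (u ^ 32) (u ^ 66) := by
    apply hPLN
    · positivity
    · have h1 : 100 ≤ u ^ 2 := by nlinarith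
      calc 100 * u ^ 32 * u ^ 32 ≤ u ^ 2 * u ^ 32 * u ^ 32 := by gcongr
        _ = u ^ 66 := by ring
  obtain ⟨net, hReg, hNum⟩ := hu₀ u huu0 _ _ (incP (u ^ 32) (u ^ 66)) hlin
  obtain ⟨z, hTyp, hFew⟩ := hEXI _ _ (mkX u (incP (u ^ 32) (u ^ 66)) net) hReg hNum
  have hdet := hDET _ _ (mkX u (incP (u ^ 32) (u ^ 66)) net) hReg hNum z hTyp hFew
  obtain ⟨A, h1, h2, h3, h4⟩ := CMB.main (mkX u (incP (u ^ 32) (u ^ 66)) net) CMB.co CMB.co_inj
    (fun ℓ => ℓ.1.1.val) (fun ℓ => ℓ.1.2.val) (fun ℓ y => CMB.mem_incP ℓ y) hReg hNum z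
    hTyp hdet
  refine ⟨A, h1, h2, ?_, fun T hT hc => ?_⟩
  · intro p hp
    obtain ⟨y, rfl⟩ := h3 p hp
    exact ⟨y.1.isLt, y.2.isLt⟩
  · obtain ⟨ℓ, h5, h6⟩ := h4 T hT (by
      refine le_trans hc (le_of_eq ?_)
      show (lamf u : ℝ) * (u : ℝ) ^ 66 / 800 = (lamf u : ℝ) * ((u ^ 66 : ℕ) : ℝ) / 800
      push_cast
      rfl)
    exact ⟨ℓ.1.1.val, ℓ.1.2.val, ℓ.1.2.isLt, ℓ.2, h5, h6⟩

end TN
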