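import Pool.Agent.Work.MP_ef7f46_tn.Interface

/-!
MP_ef7f46_co, project TN: block PARX (helper68).
-/

set_option autoImplicit false
open Classical Finset

noncomputable section

namespace TN

namespace PARX

theorem exists_log_large : ∃ u₁ : ℕ, ∀ u : ℕ, u₁ ≤ u → 400 ≤ Real.log u := by
  refine ⟨⌈Real.exp 400⌉₊, fun u hu => ?_⟩
  have h1 : Real.exp 400 ≤ (u : ℝ) := by
    have := Nat.le_ceil (Real.exp 400)
    have h2 : ((⌈Real.exp 400⌉₊ : ℕ) : ℝ) ≤ (u : ℝ) := by exact_mod_cast hu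
    linarith
  have hpos : (0 : ℝ) < u := lt_of_lt_of_le (Real.exp_pos _) h1
  rw [Real.le_log_iff_exp_le hpos]
  exact h1

theorem lamf_pos {u : ℕ} (h : 400 ≤ Real.log u) : 0 < lamf u := by
  unfold lamf
  rw [Nat.floor_pos]
  linarith

theorem lamf_le {u : ℕ} (hu : 1 ≤ u) : lamf u ≤ u ^ 3 := by
  have hu' : (1 : ℝ) ≤ u := by exact_mod_cast hu
  have h0 : 0 ≤ Real.log u := Real.log_nonneg hu'
  have h1 : (lamf u : ℝ) ≤ Real.log u / 400 := Nat.floor_le (by positivity)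
  have h2 : Real.log u ≤ u := by
    have := Real.log_le_sub_one_of_pos (by linarith : (0 : ℝ) < u)
    linarith
  have h3 : (lamf u : ℝ) ≤ u := by linarith
  have h4 : lamf u ≤ u := by exact_mod_cast h3
  calc lamf u ≤ u := h4
    _ = u ^ 1 := (pow_one u).symm
    _ ≤ u ^ 3 := Nat.pow_le_pow_right hu (by norm_num)

end PARX

theorem parx_ok (hNET : Stmt_NET) (hPARN : Stmt_PARN) : Stmt_PARX := by
  obtain ⟨u₀, hu₀⟩ := hPARN
  obtain ⟨u₁, hu₁⟩ := PARX.exists_log_large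
  refine ⟨max (max u₀ u₁) 1, fun u hu Q Λ _ _ inc hlin => ?_⟩
  have huu0 : u₀ ≤ u := le_trans (le_trans (le_max_left _ _) (le_max_left _ _)) hu
  have huu1 : u₁ ≤ u := le_trans (le_trans (le_max_right _ _) (le_max_left _ _)) hu
  have hu1 : 1 ≤ u := le_trans (le_max_right _ _) hu
  have hupos : 0 < u := hu1
  have hur : (0 : ℝ) < (u : ℝ) := by exact_mod_cast hupos
  have hur1 : (1 : ℝ) ≤ (u : ℝ) := by exact_mod_cast hu1
  have hlog := hu₁ u huu1
  have hlam := PARX.lamf_pos hlog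
  obtain ⟨net, hn01, hncard, hnap⟩ := hNET Q Λ inc (u ^ 32) (u ^ 66) hlin ((u : ℝ) ^ 56 / 2)
    (2 * u ^ 53) (by positivity) (by positivity)
  refine ⟨net, ?_, ?_⟩
  · refine
      { lin := hlin
        mpos := by show 0 < u ^ 3; positivity
        bpos := by show 0 < lamf u * u ^ 63; positivity
        lampos := hlam
        lamm := PARX.lamf_le hu1
        mb := by show u ^ 3 * (lamf u * u ^ 63) = lamf u * u ^ 66; ring
        taupos := by show (0 : ℝ) < 1 / (u : ℝ) ^ 4; positivity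
        etapos := by show (0 : ℝ) < 1 / (u : ℝ) ^ 3; positivity
        epspos := by show (0 : ℝ) < 1 / (u : ℝ) ^ 3; positivity
        Cpos := by show (1 : ℝ) ≤ (u : ℝ) ^ 2; exact one_le_pow₀ hur1
        delpos := by show (0 : ℝ) < 1 / (u : ℝ); positivity
        delle := by
          show 1 / (u : ℝ) ≤ 1
          rw [div_le_one hur]
          exact hur1
        net01 := hn01
        netap := ?_ }
    intro w hw
    obtain ⟨w', hw', h⟩ := hnap w hw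
    refine ⟨w', hw', ?_⟩
    show ∑ y, (dg inc w y - dg inc w' y) ^ 2 ≤
      (1 / (u : ℝ) ^ 4) ^ 2 * ((u ^ 32 : ℕ) : ℝ) ^ 2 * (((u ^ 32 : ℕ) : ℝ) * ((u ^ 66 : ℕ) : ℝ))
    refine le_trans h ?_
    push_cast
    have e1 : (u : ℝ) ^ 56 / 2 * ((u : ℝ) ^ 32 * (u : ℝ) ^ 66) = (u : ℝ) ^ 154 / 2 := by ring
    have e2 : ((u : ℝ) ^ 32 * (u : ℝ) ^ 66) ^ 2 * ((u : ℝ) ^ 32) ^ 2 / (2 * (u : ℝ) ^ 53) ^ 2
        = (u : ℝ) ^ 154 / 4 := by
      field_simp
      ring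
    have e3 : (1 / (u : ℝ) ^ 4) ^ 2 * ((u : ℝ) ^ 32) ^ 2 * ((u : ℝ) ^ 32 * (u : ℝ) ^ 66)
        = (u : ℝ) ^ 154 := by
      field_simp
    rw [e1, e2, e3]
    have : (0 : ℝ) < (u : ℝ) ^ 154 := by positivity
    linarith
  · refine hu₀ u huu0 Q Λ inc net ?_
    refine le_trans hncard (le_of_eq ?_)
    push_cast
    have e1 : (2 : ℝ) * (2 * (u : ℝ) ^ 53) + 1 = 4 * (u : ℝ) ^ 53 + 1 := by ring
    have e2 : (2 : ℝ) * ((u : ℝ) ^ 32 * (u : ℝ) ^ 66) * ((u : ℝ) ^ 32) ^ 2 / ((u : ℝ) ^ 56 / 2) ^ 2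
        = 8 * (u : ℝ) ^ 50 := by
      field_simp
      ring
    rw [e1, e2]

end TN
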